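import Pool.Agent.H55.FFM.TE

/-!
# Row HIC of the board on maps with finite fibres: Hilbert irreducibility in a residue class
-/

open MvPolynomial
open Pool.Agent.H12.ZD (pmap v O Res DenseOrbit NoInv)
open Pool.Agent.H18.HIT Pool.Agent.H55.FFM

set_option autoImplicit false

namespace Pool.Agent.H66.FFM

section

variable {N : ℕ}

/-- the substitution `x ↦ y + m x` -/
noncomputable def sb (m : ℕ) (y : Fin N → ℤ) : Po N Qb →ₐ[Qb] Po N Qb :=
  aeval fun j => C ((y j : ℤ) : Qb) + C ((m : ℕ) : Qb) * X j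

/-- the inverse substitution -/
noncomputable def sbi (m : ℕ) (y : Fin N → ℤ) : Po N Qb →ₐ[Qb] Po N Qb :=
  aeval fun j => C (((m : ℕ) : Qb)⁻¹) * (X j - C ((y j : ℤ) : Qb))

theorem sbi_sb {m : ℕ} (hm : (m : Qb) ≠ 0) (y : Fin N → ℤ) (q : Po N Qb) :
    sbi m y (sb m y q) = q := by
  have h : (sbi m y).comp (sb m y) = AlgHom.id Qb (Po N Qb) := by
    apply algHom_ext
    intro i
    rw [AlgHom.comp_apply, sb, aeval_X, map_add, map_mul, algHom_C, algHom_C, sbi, aeval_X,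
      algebraMap_eq, ← mul_assoc, ← C_mul, mul_inv_cancel₀ hm, C_1, one_mul, AlgHom.id_apply,
      add_sub_cancel]
  exact DFunLike.congr_fun h q

theorem sb_sbi {m : ℕ} (hm : (m : Qb) ≠ 0) (y : Fin N → ℤ) (q : Po N Qb) :
    sb m y (sbi m y q) = q := by
  have h : (sb m y).comp (sbi m y) = AlgHom.id Qb (Po N Qb) := by
    apply algHom_ext
    intro i
    rw [AlgHom.comp_apply, sbi, aeval_X, map_mul, map_sub, algHom_C, algHom_C, sb, aeval_X,
      algebraMap_eq, add_sub_cancel_left, ← mul_assoc, ← C_mul, inv_mul_cancel₀ hm, C_1, one_mul,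
      AlgHom.id_apply]
  exact DFunLike.congr_fun h q

theorem map_sb (m : ℕ) (y : Fin N → ℤ) (σ : Qb ≃+* Qb) (q : Po N Qb) :
    map (σ : Qb →+* Qb) (sb m y q) = sb m y (map (σ : Qb →+* Qb) q) := by
  have h : (map (σ : Qb →+* Qb)).comp (sb m y : Po N Qb →+* Po N Qb) =
      (sb m y : Po N Qb →+* Po N Qb).comp (map (σ : Qb →+* Qb)) := by
    apply ringHom_ext
    · intro a
      simp only [RingHom.comp_apply, RingHom.coe_coe, algHom_C, algebraMap_eq, map_C]
    · intro i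
      simp only [RingHom.comp_apply, RingHom.coe_coe, sb, aeval_X, map_X, map_add, map_mul, map_C,
        map_intCast, map_natCast]
  exact RingHom.congr_fun h q

/-- the conjugate of `G` by `x ↦ y + m x` -/
noncomputable def cj (m : ℕ) (y : Fin N → ℤ) (G : Tup N Qb) : Tup N Qb := fun i =>
  C (((m : ℕ) : Qb)⁻¹) * (sb m y (G i) - C ((y i : ℤ) : Qb))

theorem sb_eq_cj {m : ℕ} (hm : (m : Qb) ≠ 0) (y : Fin N → ℤ) (G : Tup N Qb) (i : Fin N) :
    sb m y (G i) = C ((y i : ℤ) : Qb) + C ((m : ℕ) : Qb) * cj m y G i := by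
  rw [cj, ← mul_assoc, ← C_mul, mul_inv_cancel₀ hm, C_1, one_mul, add_sub_cancel]

theorem aeval_cj (m : ℕ) (y : Fin N → ℤ) (G : Tup N Qb) (q : Po N Qb) :
    aeval (cj m y G) q = sb m y (aeval G (sbi m y q)) := by
  have h : (aeval (cj m y G) : Po N Qb →ₐ[Qb] Po N Qb) =
      (sb m y).comp ((aeval G : Po N Qb →ₐ[Qb] Po N Qb).comp (sbi m y)) := by
    apply algHom_ext
    intro i
    rw [AlgHom.comp_apply, AlgHom.comp_apply, aeval_X, sbi, aeval_X, map_mul, map_sub, algHom_C,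
      algHom_C, aeval_X, map_mul, map_sub, algebraMap_eq, algHom_C, algHom_C, algebraMap_eq, cj]
  exact DFunLike.congr_fun h q

theorem eval_sb (m : ℕ) (y : Fin N → ℤ) (x : Fin N → Qb) (q : Po N Qb) :
    eval x (sb m y q) = eval (fun j => ((y j : ℤ) : Qb) + (m : Qb) * x j) q := by
  rw [sb, eval_aeval]
  congr 2
  funext j
  rw [pmap, map_add, map_mul, eval_C, eval_C, eval_X]

theorem pmap_cj {m : ℕ} (hm : (m : Qb) ≠ 0) (y : Fin N → ℤ) (G : Tup N Qb) (P : Fin N → Qb)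
    (z' : Fin N → ℤ) (h : pmap G P = cZ fun i => y i + m * z' i) :
    pmap (cj m y G) (fun j => (m : Qb)⁻¹ * (P j - ((y j : ℤ) : Qb))) = cZ z' := by
  funext i
  have h1 := congrFun h i
  rw [pmap, cZ] at h1
  have h2 : (fun j => ((y j : ℤ) : Qb) + (m : Qb) * ((m : Qb)⁻¹ * (P j - ((y j : ℤ) : Qb)))) =
      P := by
    funext j
    rw [← mul_assoc, mul_inv_cancel₀ hm, one_mul, add_sub_cancel]
  rw [pmap, cj, map_mul, eval_C, map_sub, eval_C, eval_sb, h2, h1, cZ]
  push_cast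
  rw [add_sub_cancel_left, ← mul_assoc, inv_mul_cancel₀ hm, one_mul]

end

theorem pf_HIC (hHIT : Pool.Agent.H18.HIT.T_HIT) : T_HIC := by
  intro N G c m y hG hc hm
  have hm0 : (m : Qb) ≠ 0 := Nat.cast_ne_zero.mpr (by omega)
  have hinj : Function.Injective (aeval (cj m y G) : Po N Qb →ₐ[Qb] Po N Qb) := by
    intro a b hab
    rw [aeval_cj, aeval_cj] at hab
    have h1 := congrArg (sbi m y) hab
    rw [sbi_sb hm0, sbi_sb hm0] at h1
    have h2 := congrArg (sb m y) (hG h1)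
    rwa [sb_sbi hm0, sb_sbi hm0] at h2
  have hc' : sb m y c ≠ 0 := by
    intro h
    have h1 := congrArg (sbi m y) h
    rw [sbi_sb hm0, map_zero] at h1
    exact hc h1
  obtain ⟨z', hz', hP⟩ := hHIT N (cj m y G) (sb m y c) hinj hc'
  refine ⟨fun i => y i + m * z' i, fun i => ⟨z' i, by ring⟩, ?_, ?_⟩
  · intro h
    apply hz'
    rw [eval_sb, ← h]
    congr 2
    funext j
    rw [cZ, cZ]
    push_cast
    rfl
  · intro P P' h1 h2
    obtain ⟨σ, hσ1, hσ2⟩ := hP _ _ (pmap_cj hm0 y G P z' h1) (pmap_cj hm0 y G P' z' h2)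
    refine ⟨σ, fun i => ?_, fun i => ?_⟩
    · have h3 : sb m y (map (σ : Qb →+* Qb) (G i)) = sb m y (G i) := by
        rw [← map_sb, sb_eq_cj hm0, map_add, map_mul, hσ1 i]
        simp only [map_C, RingHom.coe_coe, map_intCast, map_natCast]
      have h4 := congrArg (sbi m y) h3
      rwa [sbi_sb hm0, sbi_sb hm0] at h4
    · have h3 := hσ2 i
      rw [map_mul, map_inv₀, map_sub, map_natCast, map_intCast] at h3
      have h4 := mul_left_cancel₀ (inv_ne_zero hm0) h3
      exact sub_left_injective h4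

end Pool.Agent.H66.FFM
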