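import Pool.Agent.H55.FFM.TE

/-!
# Rows DQT, FBR and RON of the board on maps with finite fibres
-/

open MvPolynomial
open Pool.Agent.H12.ZD (pmap v O Res DenseOrbit NoInv)
open Pool.Agent.H18.HIT Pool.Agent.H55.FFM

set_option autoImplicit false

namespace Pool.Agent.H66.FFM

/-- `up` as a ring homomorphism -/
theorem up_zero {N : ℕ} {k : Type} [Field k] : (up (0 : Po N k) : PP N k) = 0 := map_zero _

theorem pf_DQT : T_DQT := by
  intro N k _ G x P hP
  set I : Ideal (PP N k) := Ideal.span (Set.range fun i => up (G i) - C (X i)) with hI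
  have h1 : ((Ideal.Quotient.mk I).comp (C : Po N k →+* PP N k)) =
      (((Ideal.Quotient.mk I).comp (MvPolynomial.map (algebraMap k (Po N k)))).comp
        (aeval G : Po N k →ₐ[k] Po N k).toRingHom) := by
    apply MvPolynomial.ringHom_ext
    · intro a
      simp only [RingHom.comp_apply, AlgHom.toRingHom_eq_coe, RingHom.coe_coe, algHom_C,
        algebraMap_eq, MvPolynomial.map_C]
    · intro i
      simp only [RingHom.comp_apply, AlgHom.toRingHom_eq_coe, RingHom.coe_coe, aeval_X]
      rw [eq_comm, Ideal.Quotient.eq]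
      exact Ideal.subset_span ⟨i, rfl⟩
  have h2 : Polynomial.aeval (up x) P ∈ I := by
    rw [← Ideal.Quotient.eq_zero_iff_mem, Polynomial.aeval_def, Polynomial.hom_eval₂,
      MvPolynomial.algebraMap_eq, h1]
    change P.eval₂ (((Ideal.Quotient.mk I).comp (MvPolynomial.map (algebraMap k (Po N k)))).comp
        (aeval G : Po N k →ₐ[k] Po N k).toRingHom)
        (((Ideal.Quotient.mk I).comp (MvPolynomial.map (algebraMap k (Po N k)))) x) = 0
    rw [← Polynomial.hom_eval₂]
    change ((Ideal.Quotient.mk I).comp (MvPolynomial.map (algebraMap k (Po N k)))) (ev2 G x P) = 0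
    rw [hP, map_zero]
  rw [hI, Ideal.mem_span_range_iff_exists_fun] at h2
  obtain ⟨c, hc⟩ := h2
  exact ⟨c, hc.symm⟩

theorem pf_FBR (hELM : Pool.Agent.H18.HIT.T_ELM) : T_FBR := by
  intro N k _ G τ Ω _ _ _ _ hG hτ y hy
  have hA : ∀ q : Po N k, aeval y (aeval G q) = algebraMap (KN N k) Ω (τ (fr q)) := by
    intro q
    have h : (aeval y : Po N k →ₐ[k] Ω).comp (aeval G : Po N k →ₐ[k] Po N k) =
        (IsScalarTower.toAlgHom k (KN N k) Ω).comp
          (τ.comp (IsScalarTower.toAlgHom k (Po N k) (KN N k))) := by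
      apply algHom_ext
      intro i
      simp only [AlgHom.comp_apply, aeval_X, IsScalarTower.coe_toAlgHom']
      exact hy i
    exact DFunLike.congr_fun h q
  have hinj : Function.Injective ((aeval y : Po N k →ₐ[k] Ω) : Po N k →+* Ω) := by
    rw [injective_iff_map_eq_zero]
    intro c hc
    by_contra hne
    obtain ⟨c', hc', hdvd⟩ := hELM N k G hG c hne
    obtain ⟨d, hd⟩ := hdvd
    have h1 : aeval y (aeval G c') = 0 := by
      rw [hd, map_mul]
      have : aeval y c = 0 := hc
      rw [this, zero_mul]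
    rw [hA c', map_eq_zero, map_eq_zero] at h1
    exact hc' ((IsFractionRing.injective (Po N k) (KN N k)) (by rw [map_zero]; exact h1))
  refine ⟨IsFractionRing.lift hinj, ?_, ?_, ?_⟩
  · intro i
    rw [fr, IsFractionRing.lift_algebraMap]
    exact aeval_X y i
  · intro c
    rw [IsScalarTower.algebraMap_apply k (Po N k) (KN N k), IsFractionRing.lift_algebraMap]
    exact (aeval y : Po N k →ₐ[k] Ω).commutes c
  · have h : (IsFractionRing.lift hinj).comp (τ : KN N k →+* KN N k) =
        (algebraMap (KN N k) Ω).comp (τ : KN N k →+* KN N k) := by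
      apply IsLocalization.ringHom_ext (nonZeroDivisors (Po N k))
      apply RingHom.ext
      intro q
      simp only [RingHom.comp_apply, RingHom.coe_coe]
      have h1 : τ (algebraMap (Po N k) (KN N k) q) = fr (aeval G q) := hτ q
      rw [← hA q, h1, fr, IsFractionRing.lift_algebraMap]
      rfl
    intro a
    exact RingHom.congr_fun h a

section Zm

variable {N : ℕ} {k : Type} [Field k]

/-- the integral elements form a subring -/
def ItR (G : Tup N k) : Subring (Po N k) where
  carrier := {a | Itg G a}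
  mul_mem' := fun ha hb => RingHom.IsIntegralElem.mul _ ha hb
  one_mem' := RingHom.isIntegralElem_one _
  add_mem' := fun ha hb => RingHom.IsIntegralElem.add _ ha hb
  zero_mem' := RingHom.isIntegralElem_zero _
  neg_mem' := fun ha => RingHom.IsIntegralElem.neg _ ha

theorem mem_ItR {G : Tup N k} {a : Po N k} : a ∈ ItR G ↔ Itg G a := Iff.rfl

theorem Zm_zero (G : Tup N k) : Zm G 0 := by
  refine ⟨(ItR G).zero_mem, fun a => ⟨1, ?_⟩⟩
  rw [pow_one, zero_mul]
  exact (ItR G).zero_mem

theorem Zm_mul {G : Tup N k} {b r : Po N k} (hb : Itg G b) (hr : Zm G r) : Zm G (b * r) := by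
  refine ⟨(ItR G).mul_mem hb hr.1, fun a => ?_⟩
  obtain ⟨n, hn⟩ := hr.2 a
  refine ⟨n, ?_⟩
  rw [mul_pow, mul_assoc]
  exact (ItR G).mul_mem ((ItR G).pow_mem hb n) hn

theorem Zm_add {G : Tup N k} {r s : Po N k} (hr : Zm G r) (hs : Zm G s) : Zm G (r + s) := by
  refine ⟨(ItR G).add_mem hr.1 hs.1, fun a => ?_⟩
  obtain ⟨n, hn⟩ := hr.2 a
  obtain ⟨m, hm⟩ := hs.2 a
  refine ⟨n + m, ?_⟩
  rw [← mem_ItR, add_pow, Finset.sum_mul]
  apply Subring.sum_mem
  intro i hi
  rw [Finset.mem_range] at hi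
  have hc : ((Nat.choose (n + m) i : ℕ) : Po N k) ∈ ItR G := natCast_mem (ItR G) _
  by_cases h : n ≤ i
  · have h1 : r ^ i * s ^ (n + m - i) * (Nat.choose (n + m) i : Po N k) * a =
        r ^ (i - n) * s ^ (n + m - i) * (Nat.choose (n + m) i : Po N k) * (r ^ n * a) := by
      have : r ^ i = r ^ (i - n) * r ^ n := by rw [← pow_add, Nat.sub_add_cancel h]
      rw [this]; ring
    rw [h1]
    exact (ItR G).mul_mem ((ItR G).mul_mem ((ItR G).mul_mem ((ItR G).pow_mem hr.1 _)
      ((ItR G).pow_mem hs.1 _)) hc) hn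
  · have h2 : m ≤ n + m - i := by omega
    have h1 : r ^ i * s ^ (n + m - i) * (Nat.choose (n + m) i : Po N k) * a =
        r ^ i * s ^ (n + m - i - m) * (Nat.choose (n + m) i : Po N k) * (s ^ m * a) := by
      have : s ^ (n + m - i) = s ^ (n + m - i - m) * s ^ m := by
        rw [← pow_add, Nat.sub_add_cancel h2]
      rw [this]; ring
    rw [h1]
    exact (ItR G).mul_mem ((ItR G).mul_mem ((ItR G).mul_mem ((ItR G).pow_mem hr.1 _)
      ((ItR G).pow_mem hs.1 _)) hc) hm

theorem Zm_sum {G : Tup N k} {m : ℕ} (b r : Fin m → Po N k) (hb : ∀ i, Itg G (b i))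
    (hr : ∀ i, Zm G (r i)) (s : Finset (Fin m)) : Zm G (∑ i ∈ s, b i * r i) := by
  classical
  induction s using Finset.induction_on with
  | empty => rw [Finset.sum_empty]; exact Zm_zero G
  | insert i s hi ih =>
    rw [Finset.sum_insert hi]
    exact Zm_add (Zm_mul (hb i) (hr i)) ih

end Zm

theorem pf_RON : T_RON := by
  intro N k _ G I F _ _ π τ' hV hint hex
  obtain ⟨m, a, r, har, hr⟩ := hex
  -- the subrings of `F`
  let S' : Subring F := (ItR G).map (π : Po N k →+* F)
  let R : Subring F := (π : Po N k →+* F).range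
  have hSR : S' ≤ R := by
    rintro x ⟨q, -, rfl⟩
    exact ⟨q, rfl⟩
  let ι : S' →+* R := Subring.inclusion hSR
  have hι : Function.Injective ι := Subring.inclusion_injective hSR
  let D : Subalgebra k F := π.range.map τ'
  have hDS : ∀ x : D, (x : F) ∈ S' := by
    rintro ⟨x, hx⟩
    obtain ⟨z, ⟨q, rfl⟩, rfl⟩ := hx
    refine ⟨aeval G q, RingHom.isIntegralElem_map _, ?_⟩
    exact (hV.com q).symm
  let j : D →+* S' := (algebraMap D F).codRestrict S' hDS
  have hι2 : ι.IsIntegral := by
    rintro ⟨x, ⟨q, rfl⟩⟩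
    apply RingHom.IsIntegralElem.of_map (g := R.subtype) Subtype.val_injective
    change (S'.subtype).IsIntegralElem (π q)
    apply RingHom.isIntegralElem.of_comp (f := j)
    exact hint q
  let rr : Fin m → S' := fun i => ⟨π (r i), ⟨r i, (hr i).1, rfl⟩⟩
  have hJ : (Ideal.span (Set.range rr)).map ι = ⊤ := by
    rw [Ideal.eq_top_iff_one]
    have h1 : (1 : R) = ∑ i, (⟨π (a i), ⟨a i, rfl⟩⟩ : R) * ι (rr i) := by
      apply Subtype.ext
      rw [AddSubmonoidClass.coe_finset_sum]
      change (1 : F) = ∑ i, π (a i) * π (r i)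
      rw [← map_one π, ← har, map_sum]
      exact Finset.sum_congr rfl fun i _ => map_mul _ _ _
    rw [h1]
    exact Ideal.sum_mem _ fun i _ => Ideal.mul_mem_left _ _
      (Ideal.mem_map_of_mem ι (Ideal.subset_span ⟨i, rfl⟩))
  rw [Ideal.map_eq_top_iff ι hι hι2, Ideal.eq_top_iff_one,
    Ideal.mem_span_range_iff_exists_fun] at hJ
  obtain ⟨c, hc⟩ := hJ
  have hcb : ∀ i, ∃ b : Po N k, Itg G b ∧ π b = (c i : F) := fun i => by
    obtain ⟨b, hb, hbc⟩ := (c i).2
    exact ⟨b, hb, hbc⟩
  choose b hb hbc using hcb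
  refine ⟨∑ i, b i * r i, Zm_sum b r hb hr Finset.univ, ?_⟩
  have h2 := congrArg (Subtype.val) hc
  rw [AddSubmonoidClass.coe_finset_sum] at h2
  rw [map_sum]
  refine Eq.trans (Finset.sum_congr rfl fun i _ => ?_) h2
  rw [map_mul, hbc i]
  rfl

end Pool.Agent.H66.FFM
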